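import Mathlib

/-!
# Regular skew Laurent series rings are Artinian

`A` is a ring with an automorphism `φ`.  `SkewLaurent A φ` is the ring `A((x, φ))` of formal series
`∑ a_i x^i` (`i ≥ n` for some integer `n`), with coefficientwise addition and `x a = φ(a) x`.
We prove: if `A((x, φ))` is von Neumann regular, then it is (left and right) Artinian.
-/

set_option autoImplicit false

universe u

namespace Pool.Agent.Results.MP_20d9b9_al.RegularImpliesArtinian

/-- Formal series `∑ a_i x^i` over `A` with only finitely many nonzero coefficients of negative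
index. -/
@[ext]
structure SkewLaurent (A : Type u) [Ring A] (φ : RingAut A) where
  /-- the coefficient `a_i` of `x^i` -/
  coeff : ℤ → A
  /-- there is `n` such that all coefficients of index less than `n` vanish -/
  bdd : ∃ n : ℤ, ∀ i < n, coeff i = 0

variable {A : Type u} [Ring A] {φ : RingAut A}

namespace SkewLaurent

/-- The coefficients of a product: `x^i a = φ^i(a) x^i`, so the coefficient of `x^k` in `f g` is
the sum of `f_i φ^i(g_{k-i})` over all `i`. -/
noncomputable def mulCoeff (f g : SkewLaurent A φ) (k : ℤ) : A :=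
  ∑ᶠ i : ℤ, f.coeff i * (φ ^ i) (g.coeff (k - i))

theorem mulCoeff_eq (f g : SkewLaurent A φ) {a b : ℤ} (ha : ∀ i < a, f.coeff i = 0)
    (hb : ∀ i < b, g.coeff i = 0) (k : ℤ) :
    mulCoeff f g k = ∑ i ∈ Finset.Icc a (k - b), f.coeff i * (φ ^ i) (g.coeff (k - i)) := by
  unfold mulCoeff
  apply finsum_eq_sum_of_support_subset
  intro i hi
  rw [Function.mem_support] at hi
  rw [Finset.coe_Icc, Set.mem_Icc]
  constructor
  · by_contra h
    exact hi (by rw [ha i (not_le.mp h), zero_mul])
  · by_contra h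
    exact hi (by rw [hb (k - i) (by omega), map_zero, mul_zero])

theorem mulCoeff_bdd (f g : SkewLaurent A φ) {a b : ℤ} (ha : ∀ i < a, f.coeff i = 0)
    (hb : ∀ i < b, g.coeff i = 0) : ∀ k < a + b, mulCoeff f g k = 0 := by
  intro k hk
  rw [mulCoeff_eq f g ha hb k, Finset.Icc_eq_empty (by omega), Finset.sum_empty]

noncomputable instance : Mul (SkewLaurent A φ) :=
  ⟨fun f g => ⟨mulCoeff f g, by
    obtain ⟨a, ha⟩ := f.bdd
    obtain ⟨b, hb⟩ := g.bdd
    exact ⟨a + b, mulCoeff_bdd f g ha hb⟩⟩⟩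

instance : Add (SkewLaurent A φ) :=
  ⟨fun f g => ⟨fun i => f.coeff i + g.coeff i, by
    obtain ⟨a, ha⟩ := f.bdd
    obtain ⟨b, hb⟩ := g.bdd
    exact ⟨min a b, fun i hi => by
      rw [ha i (lt_of_lt_of_le hi (min_le_left _ _)), hb i (lt_of_lt_of_le hi (min_le_right _ _)),
        add_zero]⟩⟩⟩

instance : Zero (SkewLaurent A φ) := ⟨⟨fun _ => 0, 0, fun _ _ => rfl⟩⟩

instance : Neg (SkewLaurent A φ) :=
  ⟨fun f => ⟨fun i => - f.coeff i, by
    obtain ⟨a, ha⟩ := f.bdd
    exact ⟨a, fun i hi => by rw [ha i hi, neg_zero]⟩⟩⟩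

/-- the series `a x^n` -/
def single (n : ℤ) (a : A) : SkewLaurent A φ :=
  ⟨fun i => if i = n then a else 0, n, fun i hi => if_neg (by omega)⟩

instance : One (SkewLaurent A φ) := ⟨single 0 1⟩

@[simp] theorem coeff_add (f g : SkewLaurent A φ) (i : ℤ) :
    (f + g).coeff i = f.coeff i + g.coeff i := rfl
@[simp] theorem coeff_zero (i : ℤ) : (0 : SkewLaurent A φ).coeff i = 0 := rfl
@[simp] theorem coeff_neg (f : SkewLaurent A φ) (i : ℤ) : (-f).coeff i = - f.coeff i := rfl
theorem coeff_mul (f g : SkewLaurent A φ) (k : ℤ) :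
    (f * g).coeff k = ∑ᶠ i : ℤ, f.coeff i * (φ ^ i) (g.coeff (k - i)) := rfl
theorem coeff_single (n : ℤ) (a : A) (i : ℤ) :
    (single n a : SkewLaurent A φ).coeff i = if i = n then a else 0 := rfl
theorem one_def : (1 : SkewLaurent A φ) = single 0 1 := rfl

theorem coeff_mul_eq (f g : SkewLaurent A φ) {a b : ℤ} (ha : ∀ i < a, f.coeff i = 0)
    (hb : ∀ i < b, g.coeff i = 0) (k : ℤ) :
    (f * g).coeff k = ∑ i ∈ Finset.Icc a (k - b), f.coeff i * (φ ^ i) (g.coeff (k - i)) :=
  mulCoeff_eq f g ha hb k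

theorem coeff_mul_bdd (f g : SkewLaurent A φ) {a b : ℤ} (ha : ∀ i < a, f.coeff i = 0)
    (hb : ∀ i < b, g.coeff i = 0) : ∀ k < a + b, (f * g).coeff k = 0 :=
  mulCoeff_bdd f g ha hb

theorem coeff_single_mul (n : ℤ) (a : A) (g : SkewLaurent A φ) (k : ℤ) :
    (single n a * g).coeff k = a * (φ ^ n) (g.coeff (k - n)) := by
  rw [coeff_mul, finsum_eq_single _ n]
  · rw [coeff_single, if_pos rfl]
  · intro i hi
    rw [coeff_single, if_neg hi, zero_mul]

theorem coeff_mul_single (n : ℤ) (a : A) (f : SkewLaurent A φ) (k : ℤ) :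
    (f * single n a).coeff k = f.coeff (k - n) * (φ ^ (k - n)) a := by
  rw [coeff_mul, finsum_eq_single _ (k - n)]
  · rw [coeff_single, if_pos (by ring)]
  · intro i hi
    rw [coeff_single, if_neg (by omega), map_zero, mul_zero]

theorem mul_assoc' (f g h : SkewLaurent A φ) : f * g * h = f * (g * h) := by
  obtain ⟨a, ha⟩ := f.bdd
  obtain ⟨b, hb⟩ := g.bdd
  obtain ⟨c, hc⟩ := h.bdd
  ext k
  rw [coeff_mul_eq (f * g) h (coeff_mul_bdd f g ha hb) hc k,
    coeff_mul_eq f (g * h) ha (coeff_mul_bdd g h hb hc) k]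
  have h1 : ∀ i ∈ Finset.Icc (a + b) (k - c), (f * g).coeff i * (φ ^ i) (h.coeff (k - i)) =
      ∑ j ∈ Finset.Icc a (i - b), f.coeff j * (φ ^ j) (g.coeff (i - j)) *
        (φ ^ i) (h.coeff (k - i)) := by
    intro i _
    rw [coeff_mul_eq f g ha hb i, Finset.sum_mul]
  have h2 : ∀ j ∈ Finset.Icc a (k - (b + c)), f.coeff j * (φ ^ j) ((g * h).coeff (k - j)) =
      ∑ i ∈ Finset.Icc (j + b) (k - c), f.coeff j * (φ ^ j) (g.coeff (i - j)) *
        (φ ^ i) (h.coeff (k - i)) := by
    intro j _
    rw [coeff_mul_eq g h hb hc (k - j), map_sum, Finset.mul_sum]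
    refine Finset.sum_nbij' (fun l => j + l) (fun i => i - j) ?_ ?_ ?_ ?_ ?_
    · intro l hl
      rw [Finset.mem_Icc] at hl ⊢
      omega
    · intro i hi
      rw [Finset.mem_Icc] at hi ⊢
      omega
    · intro l _
      simp
    · intro i _
      simp
    · intro l _
      have e1 : j + l - j = l := by ring
      have e2 : k - (j + l) = k - j - l := by ring
      rw [e1, e2, map_mul, mul_assoc, zpow_add]
      rfl
  rw [Finset.sum_congr rfl h1, Finset.sum_congr rfl h2]
  refine Finset.sum_comm' ?_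
  intro i j
  simp only [Finset.mem_Icc]
  omega

theorem left_distrib' (f g h : SkewLaurent A φ) : f * (g + h) = f * g + f * h := by
  obtain ⟨a, ha⟩ := f.bdd
  obtain ⟨b, hb⟩ := g.bdd
  obtain ⟨c, hc⟩ := h.bdd
  ext k
  have hb' : ∀ i < min b c, g.coeff i = 0 := fun i hi => hb i (lt_of_lt_of_le hi (min_le_left _ _))
  have hc' : ∀ i < min b c, h.coeff i = 0 := fun i hi => hc i (lt_of_lt_of_le hi (min_le_right _ _))
  have hbc : ∀ i < min b c, (g + h).coeff i = 0 := fun i hi => by
    rw [coeff_add, hb' i hi, hc' i hi, add_zero]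
  rw [coeff_add, coeff_mul_eq f (g + h) ha hbc k, coeff_mul_eq f g ha hb' k,
    coeff_mul_eq f h ha hc' k, ← Finset.sum_add_distrib]
  exact Finset.sum_congr rfl fun i _ => by rw [coeff_add, map_add, mul_add]

theorem right_distrib' (f g h : SkewLaurent A φ) : (f + g) * h = f * h + g * h := by
  obtain ⟨a, ha⟩ := f.bdd
  obtain ⟨b, hb⟩ := g.bdd
  obtain ⟨c, hc⟩ := h.bdd
  ext k
  have ha' : ∀ i < min a b, f.coeff i = 0 := fun i hi => ha i (lt_of_lt_of_le hi (min_le_left _ _))
  have hb' : ∀ i < min a b, g.coeff i = 0 := fun i hi => hb i (lt_of_lt_of_le hi (min_le_right _ _))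
  have hab : ∀ i < min a b, (f + g).coeff i = 0 := fun i hi => by
    rw [coeff_add, ha' i hi, hb' i hi, add_zero]
  rw [coeff_add, coeff_mul_eq (f + g) h hab hc k, coeff_mul_eq f h ha' hc k,
    coeff_mul_eq g h hb' hc k, ← Finset.sum_add_distrib]
  exact Finset.sum_congr rfl fun i _ => by rw [coeff_add, add_mul]

/-- The ring structure of `A((x, φ))`. -/
noncomputable instance : Ring (SkewLaurent A φ) where
  add_assoc f g h := by ext i; exact add_assoc _ _ _
  zero_add f := by ext i; exact zero_add _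
  add_zero f := by ext i; exact add_zero _
  add_comm f g := by ext i; exact add_comm _ _
  nsmul := nsmulRec
  zsmul := zsmulRec
  neg_add_cancel f := by ext i; exact neg_add_cancel _
  mul_assoc := mul_assoc'
  left_distrib := left_distrib'
  right_distrib := right_distrib'
  zero_mul f := by
    ext k
    rw [coeff_mul]
    simp
  mul_zero f := by
    ext k
    rw [coeff_mul]
    simp
  one_mul f := by
    ext k
    rw [one_def, coeff_single_mul]
    simp
  mul_one f := by
    ext k
    rw [one_def, coeff_mul_single]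
    simp

@[simp] theorem coeff_sub (f g : SkewLaurent A φ) (i : ℤ) :
    (f - g).coeff i = f.coeff i - g.coeff i := by
  rw [sub_eq_add_neg, coeff_add, coeff_neg, ← sub_eq_add_neg]

end SkewLaurent

open SkewLaurent

/-- von Neumann regularity -/
def IsRegularRing (R : Type*) [Ring R] : Prop := ∀ r : R, ∃ s : R, r = r * s * r

/-! ### Left ideals of regular rings -/

section Regular

variable {R : Type u} [Ring R]

theorem span_pair_idem {h w : R} (hh : h * h = h) (ww : w * w = w) (hw : h * w = 0)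
    (wh : w * h = 0) :
    Submodule.span R {h} ⊔ Submodule.span R {w} = Submodule.span R {h + w} := by
  apply le_antisymm
  · rw [sup_le_iff, Submodule.span_singleton_le_iff_mem, Submodule.span_singleton_le_iff_mem,
      Submodule.mem_span_singleton, Submodule.mem_span_singleton]
    exact ⟨⟨h, by rw [smul_eq_mul, mul_add, hh, hw, add_zero]⟩,
      ⟨w, by rw [smul_eq_mul, mul_add, wh, ww, zero_add]⟩⟩
  · rw [Submodule.span_singleton_le_iff_mem]
    exact Submodule.add_mem_sup (Submodule.mem_span_singleton_self h)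
      (Submodule.mem_span_singleton_self w)

/-- In a regular ring, `R h + R a = R (h + w)` with `w` an idempotent orthogonal to the given
idempotent `h`. -/
theorem exists_orth (hR : IsRegularRing R) {h : R} (hh : h * h = h) (a : R) :
    ∃ w : R, w * w = w ∧ h * w = 0 ∧ w * h = 0 ∧
      Submodule.span R {h} ⊔ Submodule.span R {a} = Submodule.span R {h + w} := by
  obtain ⟨s, hs⟩ := hR (a * (1 - h))
  set b := a * (1 - h) with hb
  have bh : b * h = 0 := by
    rw [hb, mul_assoc, sub_mul, one_mul, hh, sub_self, mul_zero]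
  have b1 : b * (1 - h) = b := by rw [mul_sub, mul_one, bh, sub_zero]
  have w0h : s * b * h = 0 := by rw [mul_assoc, bh, mul_zero]
  have w01 : s * b * (1 - h) = s * b := by rw [mul_assoc, b1]
  have w0w0 : s * b * (s * b) = s * b := by
    calc s * b * (s * b) = s * (b * s * b) := by noncomm_ring
      _ = s * b := by rw [← hs]
  have h1h : h * (1 - h) = 0 := by rw [mul_sub, mul_one, hh, sub_self]
  have ww : ((1 - h) * (s * b)) * ((1 - h) * (s * b)) = (1 - h) * (s * b) := by
    calc ((1 - h) * (s * b)) * ((1 - h) * (s * b)) = (1 - h) * ((s * b * (1 - h)) * (s * b)) := by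
          noncomm_ring
      _ = (1 - h) * (s * b) := by rw [w01, w0w0]
  have hw : h * ((1 - h) * (s * b)) = 0 := by rw [← mul_assoc, h1h, zero_mul]
  have wh : ((1 - h) * (s * b)) * h = 0 := by rw [mul_assoc, w0h, mul_zero]
  refine ⟨(1 - h) * (s * b), ww, hw, wh, ?_⟩
  rw [← span_pair_idem hh ww hw wh]
  apply le_antisymm
  · refine sup_le le_sup_left ?_
    rw [Submodule.span_singleton_le_iff_mem]
    have e1 : a = a * h + b * ((1 - h) * (s * b)) := by
      calc a = a * h + b := by rw [hb]; noncomm_ring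
        _ = a * h + b * s * b := by rw [← hs]
        _ = a * h + (b * (1 - h)) * s * b := by rw [b1]
        _ = a * h + b * ((1 - h) * (s * b)) := by noncomm_ring
    rw [e1]
    exact Submodule.add_mem_sup
      (Submodule.smul_mem _ a (Submodule.mem_span_singleton_self h))
      (Submodule.smul_mem _ b (Submodule.mem_span_singleton_self _))
  · refine sup_le le_sup_left ?_
    rw [Submodule.span_singleton_le_iff_mem]
    have e2 : (1 - h) * (s * b) = (-((1 - h) * s * a)) * h + ((1 - h) * s) * a := by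
      rw [hb]; noncomm_ring
    rw [e2]
    exact Submodule.add_mem_sup
      (Submodule.smul_mem _ _ (Submodule.mem_span_singleton_self h))
      (Submodule.smul_mem _ _ (Submodule.mem_span_singleton_self a))

theorem exists_idem_of_fg (hR : IsRegularRing R) (N : Submodule R R) (hN : N.FG) :
    ∃ h : R, h * h = h ∧ N = Submodule.span R {h} := by
  refine Submodule.fg_induction
    (motive := fun N _ => ∃ h : R, h * h = h ∧ N = Submodule.span R {h}) ?_ ?_ N hN
  · intro a
    obtain ⟨w, ww, -, -, hw⟩ := exists_orth hR (h := 0) (by simp) a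
    refine ⟨w, ww, ?_⟩
    simpa using hw
  · rintro N₁ N₂ - - ⟨h, hh, rfl⟩ ⟨a, -, rfl⟩
    obtain ⟨w, ww, hw, wh, h1⟩ := exists_orth hR hh a
    refine ⟨h + w, ?_, h1⟩
    rw [mul_add, add_mul, add_mul, hh, ww, hw, wh, add_zero, zero_add]

theorem mem_span_idem {h : R} (hh : h * h = h) {r : R} :
    r ∈ Submodule.span R {h} ↔ r * h = r := by
  rw [Submodule.mem_span_singleton]
  constructor
  · rintro ⟨c, rfl⟩
    rw [smul_eq_mul, mul_assoc, hh]
  · intro h1
    exact ⟨r, h1⟩

theorem exists_compl {h : R} (hh : h * h = h) :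
    ∃ K : Submodule R R, IsCompl (Submodule.span R {h}) K := by
  have hh' : (1 - h) * (1 - h) = 1 - h := by
    rw [mul_sub, sub_mul, sub_mul, mul_one, one_mul, mul_one, hh, sub_self, sub_zero]
  refine ⟨Submodule.span R {1 - h}, ?_, ?_⟩
  · rw [Submodule.disjoint_def]
    intro x hx hx'
    rw [mem_span_idem hh] at hx
    rw [mem_span_idem hh'] at hx'
    rw [mul_sub, mul_one, hx, sub_self] at hx'
    exact hx'.symm
  · rw [codisjoint_iff, Submodule.eq_top_iff']
    intro x
    have : x = x * h + x * (1 - h) := by rw [mul_sub, mul_one]; abel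
    rw [this]
    exact Submodule.add_mem_sup
      (Submodule.smul_mem _ _ (Submodule.mem_span_singleton_self _))
      (Submodule.smul_mem _ _ (Submodule.mem_span_singleton_self _))

theorem semisimple_of_noetherian (hR : IsRegularRing R) (hN : IsNoetherian R R) :
    IsSemisimpleRing R := by
  have hc : ComplementedLattice (Submodule R R) := by
    refine ⟨fun J => ?_⟩
    obtain ⟨h, hh, rfl⟩ := exists_idem_of_fg hR J (hN.noetherian J)
    exact exists_compl hh
  exact { hc with }

/-- A regular ring that is not left Noetherian contains an infinite sequence of nonzero orthogonal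
idempotents. -/
theorem exists_seq (hR : IsRegularRing R) (hN : ¬ IsNoetherian R R) :
    ∃ e : ℕ → R, (∀ s, e s ≠ 0) ∧ (∀ s, e s * e s = e s) ∧ ∀ s t, s ≠ t → e s * e t = 0 := by
  rw [isNoetherian_iff_fg_wellFounded, WellFoundedGT, isWellFounded_iff,
    RelEmbedding.wellFounded_iff_isEmpty, not_isEmpty_iff] at hN
  obtain ⟨F⟩ := hN
  have hlt : ∀ n, (F n).1 < (F (n + 1)).1 := fun n => F.map_rel_iff.mpr (Nat.lt_succ_self n)
  have step : ∀ (n : ℕ) (h : {h : R // h * h = h ∧ (F n).1 = Submodule.span R {h}}),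
      ∃ w : R, w * w = w ∧ h.1 * w = 0 ∧ w * h.1 = 0 ∧
        (F (n + 1)).1 = Submodule.span R {h.1 + w} := by
    rintro n ⟨h, hh, hspan⟩
    obtain ⟨a, -, ha⟩ := exists_idem_of_fg hR (F (n + 1)).1 (F (n + 1)).2
    obtain ⟨w, ww, hw, wh, h1⟩ := exists_orth hR hh a
    refine ⟨w, ww, hw, wh, ?_⟩
    rw [← h1, ← hspan, ← ha]
    exact (sup_eq_right.mpr (hlt n).le).symm
  choose! W hW using step
  obtain ⟨h0, hh0, hs0⟩ := exists_idem_of_fg hR (F 0).1 (F 0).2
  let H : (n : ℕ) → {h : R // h * h = h ∧ (F n).1 = Submodule.span R {h}} := fun n =>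
    Nat.rec ⟨h0, hh0, hs0⟩ (fun n h => ⟨h.1 + W n h, by
      obtain ⟨ww, hw, wh, -⟩ := hW n h
      rw [mul_add, add_mul, add_mul, h.2.1, ww, hw, wh, add_zero, zero_add], (hW n h).2.2.2⟩) n
  have hH : ∀ n, (H (n + 1)).1 = (H n).1 + W n (H n) := fun n => rfl
  have hWH : ∀ n, W n (H n) * W n (H n) = W n (H n) ∧ (H n).1 * W n (H n) = 0 ∧
      W n (H n) * (H n).1 = 0 := fun n => ⟨(hW n (H n)).1, (hW n (H n)).2.1, (hW n (H n)).2.2.1⟩
  have key : ∀ m n, m < n → W m (H m) * (H n).1 = W m (H m) ∧ (H n).1 * W m (H m) = W m (H m) := by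
    intro m n hmn
    induction n, hmn using Nat.le_induction with
    | base =>
      rw [hH, mul_add, add_mul, (hWH m).1, (hWH m).2.1, (hWH m).2.2]
      simp
    | succ n hn ih =>
      have e1 : W m (H m) * W n (H n) = 0 := by
        rw [← ih.1, mul_assoc, (hWH n).2.1, mul_zero]
      have e2 : W n (H n) * W m (H m) = 0 := by
        rw [← ih.2, ← mul_assoc, (hWH n).2.2, zero_mul]
      rw [hH, mul_add, add_mul, e1, e2, ih.1, ih.2]
      simp
  refine ⟨fun n => W n (H n), ?_, fun n => (hWH n).1, ?_⟩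
  · intro n h0
    have h1 := hlt n
    replace h0 : W n (H n) = 0 := h0
    rw [(H n).2.2, (H (n + 1)).2.2, hH, h0, add_zero] at h1
    exact lt_irrefl _ h1
  · intro m n hmn
    rcases lt_or_gt_of_ne hmn with h | h
    · show W m (H m) * W n (H n) = 0
      rw [← (key m n h).1, mul_assoc, (hWH n).2.1, mul_zero]
    · show W m (H m) * W n (H n) = 0
      rw [← (key n m h).2, ← mul_assoc, (hWH m).2.2, zero_mul]

/-- In a regular ring, `e R f = 0` implies `f R e = 0`. -/
theorem orth_symm (hR : IsRegularRing R) {e f : R} (h : ∀ a, e * a * f = 0) (a : R) :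
    f * a * e = 0 := by
  obtain ⟨s, hs⟩ := hR (f * a * e)
  rw [hs]
  calc f * a * e * s * (f * a * e) = f * a * (e * s * f) * a * e := by noncomm_ring
    _ = 0 := by rw [h s]; simp

end Regular

/-! ### The coefficient ring of a regular skew Laurent series ring is left Noetherian -/

theorem regular_coeff (hR : IsRegularRing (SkewLaurent A φ)) : IsRegularRing A := by
  intro a
  obtain ⟨g, hg⟩ := hR (single 0 a)
  refine ⟨g.coeff 0, ?_⟩
  have h1 := congrArg (fun r => SkewLaurent.coeff r 0) hg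
  simp only [coeff_mul_single, coeff_single_mul, coeff_single] at h1
  simpa using h1

/-- The key obstruction: two infinite orthogonal families `e`, `g` of idempotents and an increasing
sequence `m` with `e_s A φ^{m_s}(g_s) ≠ 0` for all `s` do not exist. -/
theorem no_two_families (hR : IsRegularRing (SkewLaurent A φ)) (e g a : ℕ → A) (m : ℕ → ℕ)
    (hm : StrictMono m) (he : ∀ s t, s ≠ t → e s * e t = 0) (hg : ∀ s t, s ≠ t → g s * g t = 0)
    (hea : ∀ s, e s * a s = a s) (hag : ∀ s, a s * (φ ^ (m s : ℤ)) (g s) = a s)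
    (ha : ∀ s, a s ≠ 0) : False := by
  classical
  have hinj : ∀ s t, (m s : ℤ) = m t → s = t := fun s t h => hm.injective (by exact_mod_cast h)
  let f : SkewLaurent A φ :=
    ⟨fun i => if h : ∃ s, (m s : ℤ) = i then a h.choose else 0, 0, fun i hi => by
      rw [dif_neg]
      rintro ⟨s, hs⟩
      omega⟩
  have fm : ∀ s, f.coeff (m s) = a s := by
    intro s
    have hx : ∃ t, (m t : ℤ) = m s := ⟨s, rfl⟩
    show (if h : ∃ t, (m t : ℤ) = m s then a h.choose else 0) = a s
    rw [dif_pos hx]
    exact congrArg a (hinj _ _ hx.choose_spec)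
  have f0 : ∀ i, (¬ ∃ s, (m s : ℤ) = i) → f.coeff i = 0 := fun i hi => dif_neg hi
  have hef : ∀ s, single 0 (e s) * f = single (m s) (a s) := by
    intro s
    ext k
    rw [coeff_single_mul, coeff_single]
    by_cases hk : ∃ t, (m t : ℤ) = k
    · obtain ⟨t, rfl⟩ := hk
      have e1 : (φ ^ (0 : ℤ)) (f.coeff ((m t : ℤ) - 0)) = a t := by
        rw [sub_zero, fm t, zpow_zero]
        rfl
      rw [e1]
      by_cases hst : s = t
      · subst hst
        rw [if_pos rfl, hea]
      · rw [if_neg fun h => hst (hinj _ _ h).symm, ← hea t, ← mul_assoc, he s t hst, zero_mul]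
    · rw [sub_zero, f0 k hk, map_zero, mul_zero, if_neg]
      rintro rfl
      exact hk ⟨s, rfl⟩
  have hfg : ∀ s, f * single 0 (g s) = single (m s) (a s) := by
    intro s
    ext k
    rw [coeff_mul_single, coeff_single, sub_zero]
    by_cases hk : ∃ t, (m t : ℤ) = k
    · obtain ⟨t, rfl⟩ := hk
      rw [fm t]
      by_cases hst : s = t
      · subst hst
        rw [if_pos rfl, hag]
      · rw [if_neg fun h => hst (hinj _ _ h).symm, ← hag t, mul_assoc, ← map_mul,
          hg t s (Ne.symm hst), map_zero, mul_zero]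
    · rw [f0 k hk, zero_mul, if_neg]
      rintro rfl
      exact hk ⟨s, rfl⟩
  obtain ⟨q, hq⟩ := hR f
  obtain ⟨n, hn⟩ := q.bdd
  have key : ∀ s, (single (m s) (a s) : SkewLaurent A φ) =
      single (m s) (a s) * q * single (m s) (a s) := by
    intro s
    have h1 : single 0 (e s) * f * single 0 (g s) = single (m s) (a s) := by
      rw [mul_assoc, hfg s]
      ext k
      rw [coeff_single_mul, coeff_single, coeff_single, sub_zero]
      by_cases hk : k = m s
      · rw [if_pos hk, zpow_zero]
        exact hea s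
      · rw [if_neg hk, map_zero, mul_zero]
    calc (single (m s) (a s) : SkewLaurent A φ) = single 0 (e s) * f * single 0 (g s) := h1.symm
      _ = single 0 (e s) * (f * q * f) * single 0 (g s) := by rw [← hq]
      _ = (single 0 (e s) * f) * q * (f * single 0 (g s)) := by simp only [mul_assoc]
      _ = _ := by rw [hef, hfg]
  have h2 : ∀ s, a s = a s * (φ ^ (m s : ℤ)) (q.coeff (-(m s : ℤ))) * a s := by
    intro s
    have h3 := congrArg (fun r => SkewLaurent.coeff r (m s : ℤ)) (key s)
    simp only [coeff_mul_single, coeff_single_mul, coeff_single, if_true, sub_self, zpow_zero,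
      zero_sub] at h3
    exact h3
  obtain ⟨s, hs⟩ : ∃ s : ℕ, -(m s : ℤ) < n := by
    refine ⟨(1 - n).toNat, ?_⟩
    have h4 := hm.le_apply (x := (1 - n).toNat)
    have h5 := Int.self_le_toNat (1 - n)
    have h6 : (((1 - n).toNat : ℕ) : ℤ) ≤ (m (1 - n).toNat : ℤ) := by exact_mod_cast h4
    omega
  apply ha s
  rw [h2 s, hn _ hs]
  simp

theorem noetherian_coeff (hR : IsRegularRing (SkewLaurent A φ)) : IsNoetherian A A := by
  have hA := regular_coeff hR
  by_contra hN
  obtain ⟨e, e0, ee, eo⟩ := exists_seq hA hN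
  by_cases hc : ∀ N : ℕ, ∃ i j m : ℕ, N ≤ i ∧ N ≤ j ∧ N ≤ m ∧
      ∃ a, e i * a * (φ ^ (m : ℤ)) (e j) ≠ 0
  · choose I J M hI hJ hM a hane using hc
    let N : ℕ → ℕ := fun s => Nat.rec 0 (fun _ n => max (I n) (max (J n) (M n)) + 1) s
    have hNs : ∀ s, N (s + 1) = max (I (N s)) (max (J (N s)) (M (N s))) + 1 := fun s => rfl
    have mono : ∀ K : ℕ → ℕ, (∀ n, n ≤ K n) → (∀ n, K n ≤ max (I n) (max (J n) (M n))) →
        StrictMono fun s => K (N s) := by
      intro K h1 h2
      refine strictMono_nat_of_lt_succ fun s => ?_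
      have h3 := h1 (N (s + 1))
      have h4 := h2 (N s)
      rw [hNs] at h3
      show K (N s) < K (N (s + 1))
      rw [hNs]
      omega
    have hIm := mono I hI fun n => le_max_left _ _
    have hJm := mono J hJ fun n => le_max_of_le_right (le_max_left _ _)
    have hMm := mono M hM fun n => le_max_of_le_right (le_max_right _ _)
    refine no_two_families hR (fun s => e (I (N s))) (fun s => e (J (N s)))
      (fun s => e (I (N s)) * a (N s) * (φ ^ (M (N s) : ℤ)) (e (J (N s)))) (fun s => M (N s))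
      hMm ?_ ?_ ?_ ?_ ?_
    · intro s t hst
      exact eo _ _ fun h => hst (hIm.injective h)
    · intro s t hst
      exact eo _ _ fun h => hst (hJm.injective h)
    · intro s
      show e (I (N s)) * (e (I (N s)) * a (N s) * (φ ^ (M (N s) : ℤ)) (e (J (N s)))) = _
      rw [← mul_assoc, ← mul_assoc, ee]
    · intro s
      show e (I (N s)) * a (N s) * (φ ^ (M (N s) : ℤ)) (e (J (N s))) *
        (φ ^ (M (N s) : ℤ)) (e (J (N s))) = _
      rw [mul_assoc, ← map_mul, ee]
    · intro s
      exact hane (N s)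
  · push Not at hc
    obtain ⟨N, hN⟩ := hc
    set p := e N with hp
    have hp0 : ∀ d : ℕ, N ≤ d → ∀ a, p * a * (φ ^ (d : ℤ)) p = 0 :=
      fun d hd a => hN N N d le_rfl le_rfl hd a
    let ε : ℕ → A := fun s => (φ ^ ((s * (N + 1) : ℕ) : ℤ)) p
    have εdef : ∀ s, ε s = (φ ^ ((s * (N + 1) : ℕ) : ℤ)) p := fun s => rfl
    have εlt : ∀ s d : ℕ, ∀ a, ε s * a * ε (s + (d + 1)) = 0 := by
      intro s d a
      obtain ⟨b, rfl⟩ := (φ ^ ((s * (N + 1) : ℕ) : ℤ)).surjective a
      have e1 : ε (s + (d + 1)) =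
          (φ ^ ((s * (N + 1) : ℕ) : ℤ)) ((φ ^ (((d + 1) * (N + 1) : ℕ) : ℤ)) p) := by
        rw [εdef, add_mul, Nat.cast_add, zpow_add]
        rfl
      rw [e1, εdef, ← map_mul, ← map_mul, hp0 _ (by nlinarith), map_zero]
    have εo : ∀ s t, s ≠ t → ε s * ε t = 0 := by
      intro s t hst
      rcases lt_or_gt_of_ne hst with h | h
      · obtain ⟨d, rfl⟩ := Nat.exists_eq_add_of_lt h
        have := εlt s d 1
        rwa [mul_one] at this
      · obtain ⟨d, rfl⟩ := Nat.exists_eq_add_of_lt h
        have := orth_symm hA (εlt t d) 1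
        rwa [mul_one] at this
    have hε2 : ∀ s, (φ ^ ((s * (N + 1) : ℕ) : ℤ)) (ε s) = ε (2 * s) := by
      intro s
      rw [εdef, εdef, two_mul, add_mul, Nat.cast_add, zpow_add]
      rfl
    have εε : ∀ s, ε s * ε s = ε s := by
      intro s
      rw [εdef, ← map_mul, hp, ee]
    refine no_two_families hR (fun s => ε (2 * s)) ε (fun s => ε (2 * s))
      (fun s => s * (N + 1)) ?_ ?_ εo ?_ ?_ ?_
    · refine strictMono_nat_of_lt_succ fun s => ?_
      show s * (N + 1) < (s + 1) * (N + 1)
      nlinarith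
    · intro s t hst
      exact εo _ _ (by omega)
    · intro s
      exact εε _
    · intro s
      show ε (2 * s) * (φ ^ ((s * (N + 1) : ℕ) : ℤ)) (ε s) = ε (2 * s)
      rw [hε2, εε]
    · intro s
      show ε (2 * s) ≠ 0
      rw [εdef]
      exact (map_ne_zero_iff _ (φ ^ ((2 * s * (N + 1) : ℕ) : ℤ)).injective).mpr (e0 N)

/-! ### Passing back to the series ring -/

/-- The left ideal of the constant coefficients of the elements of `I` of order `≥ 0`. -/
def lc (I : Submodule (SkewLaurent A φ) (SkewLaurent A φ)) : Submodule A A where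
  carrier := {a | ∃ f ∈ I, (∀ i < 0, f.coeff i = 0) ∧ f.coeff 0 = a}
  add_mem' := by
    rintro a b ⟨f, hf, hf', rfl⟩ ⟨g, hg, hg', rfl⟩
    exact ⟨f + g, I.add_mem hf hg, fun i hi => by rw [coeff_add, hf' i hi, hg' i hi, add_zero],
      rfl⟩
  zero_mem' := ⟨0, I.zero_mem, fun _ _ => rfl, rfl⟩
  smul_mem' := by
    rintro c a ⟨f, hf, hf', rfl⟩
    refine ⟨single 0 c * f, I.smul_mem _ hf, fun i hi => ?_, ?_⟩
    · rw [coeff_single_mul, hf' _ (by omega), map_zero, mul_zero]
    · rw [coeff_single_mul]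
      simp

theorem le_of_lc_le {E : SkewLaurent A φ} (hE : E * E = E)
    {J : Submodule (SkewLaurent A φ) (SkewLaurent A φ)}
    (hEJ : Submodule.span (SkewLaurent A φ) {E} ≤ J)
    (hlc : lc J ≤ lc (Submodule.span (SkewLaurent A φ) {E})) :
    J ≤ Submodule.span (SkewLaurent A φ) {E} := by
  intro f hf
  obtain ⟨n0, hn0⟩ := f.bdd
  have approx : ∀ N : ℤ, n0 ≤ N → ∃ g ∈ Submodule.span (SkewLaurent A φ) {E},
      ∀ i < N, (f - g).coeff i = 0 := by
    intro N hN
    induction N, hN using Int.le_induction with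
    | base => exact ⟨0, Submodule.zero_mem _, fun i hi => by rw [sub_zero, hn0 i hi]⟩
    | succ N hN ih =>
      obtain ⟨g, hg, hfg⟩ := ih
      have h1 : (φ ^ (-N)) ((f - g).coeff N) ∈ lc J := by
        refine ⟨single (-N) 1 * (f - g), J.smul_mem _ (J.sub_mem hf (hEJ hg)), fun i hi => ?_, ?_⟩
        · rw [coeff_single_mul, hfg _ (by omega), map_zero, mul_zero]
        · rw [coeff_single_mul, one_mul]
          congr 2
          ring
      obtain ⟨g', hg', hg'0, hg'1⟩ := hlc h1
      refine ⟨g + single N 1 * g', Submodule.add_mem _ hg (Submodule.smul_mem _ _ hg'),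
        fun i hi => ?_⟩
      rw [coeff_sub, coeff_add, coeff_single_mul, one_mul]
      rcases lt_or_eq_of_le (Int.lt_add_one_iff.mp hi) with h | h
      · rw [hg'0 _ (by omega), map_zero, add_zero, ← coeff_sub, hfg i h]
      · subst h
        rw [sub_self, hg'1, coeff_sub]
        have : (φ ^ i) ((φ ^ (-i)) (f.coeff i - g.coeff i)) = f.coeff i - g.coeff i := by
          rw [← RingAut.mul_apply, ← zpow_add, add_neg_cancel, zpow_zero]
          rfl
        rw [this]
        abel
  rw [mem_span_idem hE]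
  have hz : f * (1 - E) = 0 := by
    obtain ⟨q, hq⟩ := (1 - E).bdd
    ext k
    obtain ⟨g, hg, hfg⟩ := approx (max n0 (k - q + 1)) (le_max_left _ _)
    rw [mem_span_idem hE] at hg
    have h1 : f * (1 - E) = (f - g) * (1 - E) := by
      rw [sub_mul, mul_sub g, mul_one, hg, sub_self, sub_zero]
    rw [h1, coeff_zero]
    exact coeff_mul_bdd _ _ hfg hq k (by
      have := le_max_right n0 (k - q + 1)
      omega)
  rw [mul_sub, mul_one, sub_eq_zero] at hz
  exact hz.symm

theorem noetherian_series (hR : IsRegularRing (SkewLaurent A φ)) :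
    IsNoetherian (SkewLaurent A φ) (SkewLaurent A φ) := by
  have hA := noetherian_coeff hR
  rw [isNoetherian_iff_fg_wellFounded]
  have hmono : StrictMono (fun N : {N : Submodule (SkewLaurent A φ) (SkewLaurent A φ) // N.FG} =>
      lc N.1) := by
    rintro ⟨I, hI⟩ ⟨J, hJ⟩ hIJ
    have hIJ' : I < J := hIJ
    refine lt_of_le_not_ge ?_ ?_
    · rintro a ⟨f, hf, hf', rfl⟩
      exact ⟨f, hIJ'.le hf, hf', rfl⟩
    · intro hle
      obtain ⟨E, hE, rfl⟩ := exists_idem_of_fg hR I hI
      exact not_le_of_gt hIJ' (le_of_lc_le hE hIJ'.le hle)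
  exact hmono.wellFoundedGT

/-- **Result.**  Let `A` be a ring and `φ` an automorphism of `A`.  If the skew Laurent series ring
`A((x, φ))` is von Neumann regular, then it is left and right Artinian. -/
theorem result (A : Type u) [Ring A] (φ : RingAut A)
    (hR : ∀ r : SkewLaurent A φ, ∃ s : SkewLaurent A φ, r = r * s * r) :
    IsArtinianRing (SkewLaurent A φ) ∧ IsArtinianRing (SkewLaurent A φ)ᵐᵒᵖ := by
  have h1 : IsSemisimpleRing (SkewLaurent A φ) :=
    semisimple_of_noetherian hR (noetherian_series hR)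
  exact ⟨inferInstance, inferInstance⟩

end Pool.Agent.Results.MP_20d9b9_al.RegularImpliesArtinian
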